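import Pool.Agent.Helper79.Cq.Pairs
import Pool.Agent.Helper79.Cq.Greedy

set_option autoImplicit false

open Finset Module
open scoped Classical

namespace Pool.Agent.Helper35.Cq

/-- pairs counted by the first coordinate -/
theorem c7_pairs_left {F : Type*} [Field F] {V : Type*} [AddCommGroup V]
    [Module F V] (E A B : Finset V) :
    (pairs F E A B).card = ∑ x ∈ A, (B.filter fun y => Long F E x y).card := by
  rw [pairs, Finset.card_filter, Finset.sum_product]
  refine Finset.sum_congr rfl fun x _ => ?_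
  rw [Finset.card_filter]

/-- pairs counted by the second coordinate -/
theorem c7_pairs_right {F : Type*} [Field F] {V : Type*} [AddCommGroup V]
    [Module F V] (E A B : Finset V) :
    (pairs F E A B).card = ∑ y ∈ B, (A.filter fun x => Long F E x y).card := by
  rw [pairs, Finset.card_filter, Finset.sum_product_right]
  refine Finset.sum_congr rfl fun x _ => ?_
  rw [Finset.card_filter]

/-! ## CQ-7  Long pairs inside a set -/

theorem card_pairs_self_le {F : Type*} [Field F] [Fintype F] {V : Type*} [AddCommGroup V]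
    [Module F V] {E : Finset V} (hE : Conic F E) (t : ℕ) (hcl : ¬ HasClique F t (E : Set V))
    (X : Finset V) (Λ : ℝ) (hX : ∀ x ∈ X, x ≠ 0) (hΛ : ∀ Y ⊆ X, (Y.card : ℝ) ≤ Λ * rk F Y) :
    ((pairs F E X X).card : ℝ) ≤ 2 ^ (t + 6) * Fintype.card F * Λ * X.card := by
  rcases X.eq_empty_or_nonempty with hX0 | ⟨x0, hx0⟩
  · subst hX0
    simp [pairs]
  have hΛ1 : 1 ≤ Λ := by
    have h1 := hΛ {x0} (Finset.singleton_subset_iff.mpr hx0)
    have h2 : rk F ({x0} : Finset V) = 1 := by
      rw [rk, Finset.coe_singleton]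
      exact finrank_span_singleton (hX x0 hx0)
    rw [h2] at h1
    simpa using h1
  have hΛ0 : 0 < Λ := by linarith
  have hXn : (0 : ℝ) < X.card := by
    exact_mod_cast Finset.card_pos.mpr ⟨x0, hx0⟩
  have hq : (1 : ℝ) ≤ Fintype.card F := by
    exact_mod_cast Fintype.card_pos
  have h2t : (1 : ℝ) ≤ 2 ^ (t + 6) := one_le_pow₀ (by norm_num)
  rcases le_or_gt (X.card : ℝ) Λ with hle | hlt
  · have h3 : ((pairs F E X X).card : ℝ) ≤ X.card * X.card := by
      have : (pairs F E X X).card ≤ (X ×ˢ X).card := Finset.card_filter_le _ _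
      rw [Finset.card_product] at this
      exact_mod_cast this
    have h4 : (X.card : ℝ) * X.card ≤ Λ * X.card := mul_le_mul_of_nonneg_right hle hXn.le
    have h5 : Λ * X.card ≤ 2 ^ (t + 6) * Fintype.card F * (Λ * X.card) := by
      have h6 : (1 : ℝ) ≤ 2 ^ (t + 6) * Fintype.card F := one_le_mul_of_one_le_of_one_le h2t hq
      exact le_mul_of_one_le_left (by positivity) h6
    calc ((pairs F E X X).card : ℝ) ≤ X.card * X.card := h3
      _ ≤ Λ * X.card := h4
      _ ≤ 2 ^ (t + 6) * Fintype.card F * (Λ * X.card) := h5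
      _ = 2 ^ (t + 6) * Fintype.card F * Λ * X.card := by ring
  · set b : ℕ := ⌈(X.card : ℝ) / Λ⌉₊ with hb
    have hb1 : (X.card : ℝ) ≤ Λ * b := by
      have := Nat.le_ceil ((X.card : ℝ) / Λ)
      rw [div_le_iff₀ hΛ0] at this
      rw [mul_comm]
      exact this
    have hb2 : (b : ℝ) * Λ ≤ 2 * X.card := by
      have h1 := Nat.ceil_lt_add_one (show 0 ≤ (X.card : ℝ) / Λ by positivity)
      have h2 : (b : ℝ) * Λ ≤ ((X.card : ℝ) / Λ + 1) * Λ := mul_le_mul_of_nonneg_right h1.le hΛ0.le
      have h3 : ((X.card : ℝ) / Λ + 1) * Λ = X.card + Λ := by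
        field_simp
      linarith
    have hmin : ∀ Y ⊆ X, (Y.card : ℝ) ≤ Λ * (min (rk F Y) b : ℕ) := by
      intro Y hY
      rcases le_total (rk F Y) b with h | h
      · rw [min_eq_left h]
        exact hΛ Y hY
      · rw [min_eq_right h]
        refine le_trans ?_ hb1
        exact_mod_cast Finset.card_le_card hY
    obtain ⟨B₁, hB₁X, hB₁i, hB₁c, hB₁s⟩ := greedy (F := F) X
      (fun x => (X.filter fun y => Long F E x y).card) b Λ hΛ0.le hmin
    obtain ⟨B₂, hB₂X, hB₂i, hB₂c, hB₂s⟩ := greedy (F := F) X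
      (fun y => (B₁.filter fun x => Long F E x y).card) b Λ hΛ0.le hmin
    have e1 : ((pairs F E X X).card : ℝ) ≤ Λ * (pairs F E B₁ X).card := by
      rw [c7_pairs_left E X X, c7_pairs_left E B₁ X]
      push_cast
      exact hB₁s
    have e2 : ((pairs F E B₁ X).card : ℝ) ≤ Λ * (pairs F E B₁ B₂).card := by
      rw [c7_pairs_right E B₁ X, c7_pairs_right E B₁ B₂]
      push_cast
      exact hB₂s
    have e3 : ((pairs F E B₁ B₂).card : ℝ) ≤ 2 ^ (t + 4) * Fintype.card F * (2 * b) := by
      have h1 := card_pairs_le hE t hcl B₁ B₂ hB₁i hB₂i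
      have h2 : (pairs F E B₁ B₂).card ≤ 2 ^ (t + 4) * Fintype.card F * (2 * b) := by
        refine h1.trans (Nat.mul_le_mul_left _ ?_)
        omega
      exact_mod_cast h2
    have e4 : (2 : ℝ) ^ (t + 6) = 4 * 2 ^ (t + 4) := by
      rw [show t + 6 = (t + 4) + 2 by ring, pow_add]
      ring
    calc ((pairs F E X X).card : ℝ) ≤ Λ * (pairs F E B₁ X).card := e1
      _ ≤ Λ * (Λ * (pairs F E B₁ B₂).card) := mul_le_mul_of_nonneg_left e2 hΛ0.le
      _ ≤ Λ * (Λ * (2 ^ (t + 4) * Fintype.card F * (2 * b))) :=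
          mul_le_mul_of_nonneg_left (mul_le_mul_of_nonneg_left e3 hΛ0.le) hΛ0.le
      _ = 2 ^ (t + 4) * Fintype.card F * 2 * Λ * (b * Λ) := by ring
      _ ≤ 2 ^ (t + 4) * Fintype.card F * 2 * Λ * (2 * X.card) :=
          mul_le_mul_of_nonneg_left hb2 (by positivity)
      _ = 2 ^ (t + 6) * Fintype.card F * Λ * X.card := by
          rw [e4]
          ring

end Pool.Agent.Helper35.Cq
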